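import Pool.Agent.Work.MP_122e00_nt.Sharp.Cert.Eval

set_option autoImplicit false

/-!
# The certificate for four parts: evaluation

Written with raw recursors and raw operations on `Nat` (fast in the kernel).  A vertex is a list of
homogeneous coordinates `(x, h)`, a simplex a list of vertices.
-/

namespace Pool.Agent.Work.MP_122e00_nt.Four.Cx

open Sharp.Cx

noncomputable section

/-! ### linear forms -/

/-- the coefficients of `∑_{i ∈ S} x_i + h_q` -/
def uv (k q S : ℕ) : List ℕ :=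
  @Nat.rec (fun _ => ℕ → List ℕ)
    (fun _ => [cond (Nat.beq q 0) 1 0, cond (Nat.beq q 1) 1 0, cond (Nat.beq q 2) 1 0,
      cond (Nat.beq q 3) 1 0])
    (fun _ ih S => List.cons (Nat.mod S 2) (ih (Nat.div S 2))) k S

/-- `3 ^ (k - |S|)` -/
def wtf (k S : ℕ) : ℕ :=
  @Nat.rec (fun _ => ℕ → ℕ) (fun _ => 1)
    (fun _ ih S => cond (Nat.beq (Nat.mod S 2) 0) (Nat.mul 3 (ih (Nat.div S 2))) (ih (Nat.div S 2)))
    k S

/-! ### tables -/

/-- one vertex: `new d = old d + L * new (d - 1)` -/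
def stp (L : ℕ) (tab : List ℕ) : List ℕ :=
  @List.rec ℕ (fun _ => ℕ → List ℕ) (fun _ => [])
    (fun a _ ih c => (fun n => List.cons n (ih n)) (Nat.add a (Nat.mul L c))) tab 0

/-- all vertices -/
def tb (Ls : List ℕ) : List ℕ → List ℕ :=
  @List.rec ℕ (fun _ => List ℕ → List ℕ) (fun t => t) (fun L _ ih t => ih (stp L t)) Ls

/-- last entry -/
def lastN (l : List ℕ) : ℕ :=
  @List.rec ℕ (fun _ => ℕ → ℕ) (fun d => d) (fun a _ ih _ => ih a) l 0

/-- the table for no vertex -/
def i0 (D : ℕ) : List ℕ := List.cons 1 (zr D)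

/-! ### leaves -/

/-- `|a - b|` -/
def ad (a b : ℕ) : ℕ := Nat.add (Nat.sub a b) (Nat.sub b a)

/-- the value of a leaf with weight `G` from the moment `Y` -/
def fin (cl : Cl) (Dl G Y : ℕ) : ℕ :=
  (fun N Z => cond (Nat.beq G 0)
    (cdiv (Nat.mul (Nat.mul Sc cl.cn) (Nat.mul (Nat.mul 254 N) Y)) Z)
    (cdiv (Nat.mul (Nat.mul Sc cl.cn) (Nat.mul (Nat.mul (ad N (Nat.mul 2 G)) (ad N (Nat.mul 2 G))) Y))
      (Nat.mul (Nat.mul 2 G) Z)))
  (Nat.pow 4 cl.k) (Nat.mul cl.cd (Nat.mul (Nat.pow Dl cl.D) (fac (Nat.add (Nat.add cl.k 3) cl.D))))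

/-- the bound for the coefficients -/
def okb (cl : Cl) (bits Dl : ℕ) : Bool :=
  Nat.blt (Nat.mul (Nat.mul (gt cl 0) (bin cl.D (Nat.add cl.k 3))) (Nat.pow Dl cl.D)) (Nat.pow 2 bits)

/-- the value of a leaf -/
def leafv (cl : Cl) (bits : ℕ) (S : List (List ℕ)) (G : ℕ) : Option ℕ :=
  (fun Dl W =>
    cond (allL (fun p => cond (Nat.beq (sm p) 0) false
        (Nat.beq (Nat.mul (Nat.div Dl (sm p)) (sm p)) Dl)) S)
      (cond (okb cl bits Dl)
        (some (fin cl Dl G (slot (gt cl bits) cl.mx bits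
          (lastN (tb (mpL (fun p => Nat.mul (Nat.div Dl (sm p)) (dot p W)) S) (i0 cl.D))))))
        none) none)
  (lcms (mpL sm S)) (wl bits cl.wS cl.us cl.ws)

/-! ### the tree -/

/-- The certificate. -/
inductive Ct
  /-- leaf: type, size of the slots -/
  | lf (b bits : ℕ)
  /-- cut of an edge -/
  | ct (i j A B g : ℕ) (l r : Ct)
  /-- the linear form `(q, S)` is `≥ 1 / 2` (`st = 1`) or `≤ 1 / 2` (`st = 0`) -/
  | dc (q S st : ℕ) (t : Ct)

/-- Evaluation: `cls` gives the class for each type, `k` is the number of marks. -/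
def run (cls : ℕ → Cl) (k : ℕ) (c : Ct) : List (List ℕ) → ℕ → ℕ → Option ℕ :=
  @Ct.rec (fun _ => List (List ℕ) → ℕ → ℕ → Option ℕ)
    (fun b bits S m G =>
      cond (Nat.beq m (Nat.sub (Nat.pow 2 (Nat.mul 4 (Nat.pow 2 k))) 1))
        (leafv (cls b) bits S G) none)
    (fun i j A B g _ _ ihl ihr S m G =>
      (fun P Q =>
        (fun w =>
          cond (cond (Nat.blt i j) (cond (Nat.blt j (Nat.add k 4))
            (cond (Nat.beq (Nat.mul A (sm P)) 0) false (cond (Nat.beq (Nat.mul B (sm Q)) 0) false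
              (chk A B g P Q w))) false) false)
            (avg (Nat.mul A (sm P)) (Nat.mul B (sm Q)) (ihl (setn w i S) m G)
              (ihr (setn w j S) m G)) none)
        (cmb A B g P Q))
      (nth S i) (nth S j))
    (fun q F st _ ih S m G =>
      (fun u e =>
        cond (cond (Nat.blt q 4) (cond (Nat.blt F (Nat.pow 2 k)) (Nat.beq (Nat.mod (Nat.div m e) 2) 0)
          false) false)
          (cond (Nat.beq st 1)
            (cond (allL (geb u) S) (ih S (Nat.add m e) (Nat.add G (wtf k F))) none)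
            (cond (allL (leb u) S) (cond (allL (geb u) S) none (ih S (Nat.add m e) G)) none))
          none)
      (uv k q F) (Nat.pow 2 (Nat.add (Nat.mul q (Nat.pow 2 k)) F)))
    c

end

end Pool.Agent.Work.MP_122e00_nt.Four.Cx
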