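import Pool.Agent.Work.MP_122e00_nt.Four.Cert.Stmts
import Pool.Agent.Work.MP_122e00_nt.Sharp.Cert.ItemG4

set_option autoImplicit false

/-!
# The certificate for four parts: item G4
-/

namespace Pool.Agent.Work.MP_122e00_nt.Four.Cx

open Finset MeasureTheory

open scoped ENNReal

open Gen Sharp Sharp.Cx

namespace IG4

/-- The position of a vertex. -/
def ix (k i : ℕ) : Option (Fin (k + 3)) := if h : i < k + 3 then some ⟨i, h⟩ else none

theorem pts_ix (k : ℕ) (S : List (List ℕ)) (i : ℕ) (hi : i < k + 4) :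
    pts (k + 3) S (ix k i) = pt (k + 4) (nth S i) := by
  unfold ix
  by_cases h : i < k + 3
  · rw [dif_pos h]
    rfl
  · rw [dif_neg h]
    have : i = k + 3 := by omega
    subst this
    rfl

theorem ix_inj {k i j : ℕ} (hi : i < k + 4) (hj : j < k + 4) (h : ix k i = ix k j) : i = j := by
  unfold ix at h
  by_cases h1 : i < k + 3
  · rw [dif_pos h1] at h
    by_cases h2 : j < k + 3
    · rw [dif_pos h2] at h
      simpa using h
    · rw [dif_neg h2] at h
      exact absurd h (by simp)
  · rw [dif_neg h1] at h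
    by_cases h2 : j < k + 3
    · rw [dif_pos h2] at h
      exact absurd h (by simp)
    · omega

theorem exists_ix (k : ℕ) (o : Option (Fin (k + 3))) : ∃ i, i < k + 4 ∧ ix k i = o := by
  rcases o with _ | i
  · exact ⟨k + 3, by omega, by unfold ix; rw [dif_neg (by omega)]⟩
  · exact ⟨i.val, by have := i.2; omega, by unfold ix; rw [dif_pos i.2]⟩

theorem pts_setn (k : ℕ) (S : List (List ℕ)) (i : ℕ) (hi : i < k + 4) (w : List ℕ) :
    pts (k + 3) (setn w i S) = Function.update (pts (k + 3) S) (ix k i) (pt (k + 4) w) := by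
  funext o
  obtain ⟨j, hj, rfl⟩ := exists_ix k o
  rw [pts_ix _ _ _ hj, G4.nth_setn]
  by_cases h : j = i
  · subst h
    rw [if_pos rfl, Function.update_self]
  · rw [if_neg h, Function.update_of_ne (fun h2 => h (ix_inj hj hi h2)), pts_ix _ _ _ hj]

theorem inv_update {k : ℕ} {S S' : List (List ℕ)} {a b : Option (Fin (k + 3))} (hab : a ≠ b)
    {μ : ℝ} (h0 : 0 < μ) (h1 : μ < 1)
    (h : pts (k + 3) S' = Function.update (pts (k + 3) S) a (μ • pts (k + 3) S a +
      (1 - μ) • pts (k + 3) S b)) (m G : ℕ) (hI : Inv k S m G) : Inv k S' m G := by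
  intro y hy hy1
  obtain ⟨y', hy', hy1', e⟩ := G4.sub_simplex (pts (k + 3) S) a b hab μ h0 h1 y hy hy1
  rw [h, e]
  exact hI y' hy' hy1'

end IG4

open IG4 in
theorem prfG4 : claimG4 := by
  intro k S i j A B g hS hij hj hA hB hchk
  set P := nth S i with hP
  set Q := nth S j with hQ
  set w := cmb A B g P Q with hw
  have hlS : S.length = k + 4 := hS.1
  have hi : i < k + 4 := by omega
  have hPS : P ∈ S := GB.nth_mem S i (by omega)
  have hQS : Q ∈ S := GB.nth_mem S j (by omega)
  obtain ⟨hPl, hP0⟩ := hS.2 P hPS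
  obtain ⟨hQl, hQ0⟩ := hS.2 Q hQS
  have hwl : w.length = k + 4 := by rw [hw, G4.cmb_length, hPl]
  have hn := G4.chk_nth A B g P Q w hchk
  have hsum : A * sm P + B * sm Q = g * sm w := by
    rw [GB.sm_eq (k + 4) P hPl, GB.sm_eq (k + 4) Q hQl, GB.sm_eq (k + 4) w hwl, Finset.mul_sum,
      Finset.mul_sum, Finset.mul_sum, ← Finset.sum_add_distrib]
    exact Finset.sum_congr rfl fun i _ => (hn i.val (by rw [hPl]; exact i.2)).symm
  have hApos : 0 < A * sm P := Nat.pos_of_ne_zero hA
  have hBpos : 0 < B * sm Q := Nat.pos_of_ne_zero hB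
  have hg : 0 < g := by
    rcases Nat.eq_zero_or_pos g with h | h
    · rw [h] at hsum; omega
    · exact h
  have hw0 : 0 < sm w := by
    rcases Nat.eq_zero_or_pos (sm w) with h | h
    · rw [h] at hsum; omega
    · exact h
  have hα0 : (0 : ℝ) < ((A * sm P : ℕ) : ℝ) := by exact_mod_cast hApos
  have hβ0 : (0 : ℝ) < ((B * sm Q : ℕ) : ℝ) := by exact_mod_cast hBpos
  set α : ℝ := ((A * sm P : ℕ) : ℝ) with hα
  set β : ℝ := ((B * sm Q : ℕ) : ℝ) with hβ
  have hμ0 : 0 < α / (α + β) := by positivity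
  have hμ1 : α / (α + β) < 1 := by
    rw [div_lt_one (by positivity)]
    linarith
  have e1 : 1 - α / (α + β) = β / (α + β) := by
    field_simp
    ring
  have hpt : pt (k + 4) w = (α / (α + β)) • pt (k + 4) P + (1 - α / (α + β)) • pt (k + 4) Q := by
    funext q
    simp only [Pi.add_apply, Pi.smul_apply, smul_eq_mul, e1]
    unfold pt
    have h1 : (g : ℝ) * nthN w q.val = A * nthN P q.val + B * nthN Q q.val := by
      exact_mod_cast hn q.val (by rw [hPl]; exact q.2)
    have h2 : α + β = g * sm w := by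
      rw [hα, hβ]
      exact_mod_cast hsum
    have hP0' : (0 : ℝ) < sm P := by exact_mod_cast hP0
    have hQ0' : (0 : ℝ) < sm Q := by exact_mod_cast hQ0
    have hg' : (0 : ℝ) < g := by exact_mod_cast hg
    have hw' : (0 : ℝ) < sm w := by exact_mod_cast hw0
    have h3 : α / (α + β) * ((nthN P q.val : ℝ) / (sm P : ℝ)) +
        β / (α + β) * ((nthN Q q.val : ℝ) / (sm Q : ℝ)) =
        (A * nthN P q.val + B * nthN Q q.val) / (α + β) := by
      rw [hα, hβ]
      push_cast
      have hne : (A : ℝ) * sm P + B * sm Q ≠ 0 := by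
        have : (A : ℝ) * sm P + B * sm Q = α + β := by rw [hα, hβ]; push_cast; ring
        rw [this]
        positivity
      field_simp
    rw [h3, ← h1, h2]
    field_simp
  have hne : ix k i ≠ ix k j := fun h => by
    have := ix_inj hi hj h
    omega
  have sv : ∀ t, t < k + 4 → Sv k (setn w t S) := by
    intro t ht
    refine ⟨by rw [G4.length_setn w t S (by omega), hlS], fun p hp => ?_⟩
    rcases G4.mem_setn w t S (by omega) p hp with h | h
    · rw [h]
      exact ⟨hwl, hw0⟩
    · exact hS.2 p h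
  have u1 : pts (k + 3) (setn w i S) = Function.update (pts (k + 3) S) (ix k i)
      ((α / (α + β)) • pts (k + 3) S (ix k i) + (1 - α / (α + β)) • pts (k + 3) S (ix k j)) := by
    rw [pts_setn k S i hi w, pts_ix k S i hi, pts_ix k S j hj, hpt]
  have u2 : pts (k + 3) (setn w j S) = Function.update (pts (k + 3) S) (ix k j)
      ((α / (α + β)) • pts (k + 3) S (ix k i) + (1 - α / (α + β)) • pts (k + 3) S (ix k j)) := by
    rw [pts_setn k S j hj w, pts_ix k S i hi, pts_ix k S j hj, hpt]
  have u2' : pts (k + 3) (setn w j S) = Function.update (pts (k + 3) S) (ix k j)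
      ((1 - α / (α + β)) • pts (k + 3) S (ix k j) +
        (1 - (1 - α / (α + β))) • pts (k + 3) S (ix k i)) := by
    rw [u2, sub_sub_cancel]
    congr 1
    exact add_comm _ _
  refine ⟨sv i hi, sv j hj, fun m G hI => ⟨inv_update hne hμ0 hμ1 u1 m G hI,
    inv_update hne.symm (by linarith) (by linarith) u2' m G hI⟩, fun G hG => ?_⟩
  have hb := Chamber.EV_bisect (pts (k + 3) S) G hG (ix k i) (ix k j) hne (α / (α + β)) hμ0.le
    hμ1.le
  rw [← u1, ← u2, e1] at hb
  exact hb

end Pool.Agent.Work.MP_122e00_nt.Four.Cx
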