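import Pool.Agent.Work.MP_122e00_nt.Four.Cert.Stmts

set_option autoImplicit false

/-!
# Item K2 (four parts): the density with hidden marks as a polynomial
-/

namespace Pool.Agent.Work.MP_122e00_nt.Four.Cx

open Finset

open Gen Sharp Sharp.Cx

namespace IK2

theorem sum_snoc (K M : ℕ) (F : (Fin (K + 1) → ℕ) → ℝ) :
    ∑ β ∈ Finset.Nat.antidiagonalTuple (K + 1) M, F β =
      ∑ q ∈ HasAntidiagonal.antidiagonal M, ∑ β ∈ Finset.Nat.antidiagonalTuple K q.1,
        F (Fin.snoc β q.2) := by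
  rw [Finset.sum_sigma']
  refine Finset.sum_bij' (i := fun β _ => (⟨(∑ i : Fin K, β i.castSucc, β (Fin.last K)),
    fun i => β i.castSucc⟩ : Σ _ : ℕ × ℕ, (Fin K → ℕ)))
    (j := fun s _ => Fin.snoc s.2 s.1.2) ?_ ?_ ?_ ?_ ?_
  · intro β hβ
    rw [Finset.Nat.mem_antidiagonalTuple, Fin.sum_univ_castSucc] at hβ
    simp only [Finset.mem_sigma, Finset.HasAntidiagonal.mem_antidiagonal, Finset.Nat.mem_antidiagonalTuple]
    exact ⟨hβ, trivial⟩
  · rintro ⟨⟨a, u⟩, β⟩ hs
    simp only [Finset.mem_sigma, Finset.HasAntidiagonal.mem_antidiagonal, Finset.Nat.mem_antidiagonalTuple] at hs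
    rw [Finset.Nat.mem_antidiagonalTuple, Fin.sum_univ_castSucc]
    simp only [Fin.snoc_castSucc, Fin.snoc_last]
    rw [hs.2, hs.1]
  · intro β hβ
    funext i
    refine Fin.lastCases ?_ (fun i => ?_) i
    · simp
    · simp
  · rintro ⟨⟨a, u⟩, β⟩ hs
    simp only [Finset.mem_sigma, Finset.HasAntidiagonal.mem_antidiagonal, Finset.Nat.mem_antidiagonalTuple] at hs
    simp only [Fin.snoc_castSucc, Fin.snoc_last]
    rw [hs.2]
  · intro β hβ
    congr 1
    funext i
    refine Fin.lastCases ?_ (fun i => ?_) i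
    · simp
    · simp

/-- The part of the first marks. -/
noncomputable def fA {k : ℕ} (x : Fin k → ℝ) (c : ℕ) : ℝ :=
  ∑ α ∈ Finset.Nat.antidiagonalTuple k c, ∏ i, x i ^ α i / ((α i + 1).factorial : ℝ)

/-- The exact part. -/
noncomputable def fs (S : ℝ) (u : ℕ) : ℝ := S ^ u / (u.factorial : ℝ)

/-- The last mark. -/
noncomputable def fg (z : ℝ) (l : ℕ) : ℝ := z ^ l / ((l + 1).factorial : ℝ)

/-- The hidden marks. -/
noncomputable def fh (b : ℕ) (z : ℝ) (j : ℕ) : ℝ := be b j * z ^ j / (j.factorial : ℝ)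

theorem fA_succ {k : ℕ} (x : Fin (k + 1) → ℝ) (c : ℕ) :
    fA x c = ∑ q ∈ HasAntidiagonal.antidiagonal c, fA (fun i : Fin k => x i.castSucc) q.1 *
      fg (x (Fin.last k)) q.2 := by
  unfold fA
  rw [sum_snoc]
  refine Finset.sum_congr rfl fun q _ => ?_
  rw [Finset.sum_mul]
  refine Finset.sum_congr rfl fun β _ => ?_
  rw [Fin.prod_univ_castSucc]
  simp only [Fin.snoc_castSucc, Fin.snoc_last]
  rfl

theorem Bt_eq (b t : ℕ) (S z : ℝ) : Bt b t S z = (t.factorial : ℝ) *
    ∑ q ∈ HasAntidiagonal.antidiagonal t, fh b z q.1 * fs S q.2 := by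
  rw [Finset.Nat.sum_antidiagonal_eq_sum_range_succ (fun j u => fh b z j * fs S u), Finset.mul_sum]
  unfold Bt
  refine Finset.sum_congr rfl fun j hj => ?_
  have hj' : j ≤ t := by
    rw [Finset.mem_range] at hj
    omega
  have h1 : ((t.choose j : ℕ) : ℝ) * ((j.factorial : ℝ) * ((t - j).factorial : ℝ)) =
      (t.factorial : ℝ) := by
    rw [← mul_assoc]
    exact_mod_cast Nat.choose_mul_factorial_mul_factorial hj'
  have hj0 : (j.factorial : ℝ) ≠ 0 := by exact_mod_cast (Nat.factorial_pos j).ne'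
  have htj0 : ((t - j).factorial : ℝ) ≠ 0 := by exact_mod_cast (Nat.factorial_pos (t - j)).ne'
  unfold fh fs
  rw [← h1]
  field_simp

theorem rh_eq (b a : ℕ) (z : ℝ) : rh b a * z ^ a / (a.factorial : ℝ) =
    ∑ q ∈ HasAntidiagonal.antidiagonal a, fh b z q.1 * fg z q.2 := by
  rw [Finset.Nat.sum_antidiagonal_eq_sum_range_succ (fun j l => fh b z j * fg z l)]
  unfold rh
  have ha0 : (a.factorial : ℝ) ≠ 0 := by exact_mod_cast (Nat.factorial_pos a).ne'
  rw [mul_assoc, mul_div_assoc, Finset.sum_mul]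
  rw [mul_div_assoc', mul_comm, mul_div_assoc, div_self ha0, mul_one]
  refine Finset.sum_congr rfl fun j hj => ?_
  have hj' : j ≤ a := by
    rw [Finset.mem_range] at hj
    omega
  have hz : z ^ a = z ^ j * z ^ (a - j) := by
    rw [← pow_add]
    congr 1
    omega
  unfold fh fg
  rw [hz]
  have hj0 : (j.factorial : ℝ) ≠ 0 := by exact_mod_cast (Nat.factorial_pos j).ne'
  have htj0 : ((a - j + 1).factorial : ℝ) ≠ 0 := by
    exact_mod_cast (Nat.factorial_pos (a - j + 1)).ne'
  field_simp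

theorem core {k : ℕ} (x : Fin (k + 1) → ℝ) (b : ℕ) (S : ℝ) (M : ℕ) :
    ∑ q ∈ HasAntidiagonal.antidiagonal M, fA x q.1 *
      ∑ r ∈ HasAntidiagonal.antidiagonal q.2, fh b (x (Fin.last k)) r.1 * fs S r.2 =
    ∑ q ∈ HasAntidiagonal.antidiagonal M, (∑ r ∈ HasAntidiagonal.antidiagonal q.1,
      fA (fun i : Fin k => x i.castSucc) r.1 *
        ∑ w ∈ HasAntidiagonal.antidiagonal r.2, fh b (x (Fin.last k)) w.1 * fg (x (Fin.last k)) w.2) *
      fs S q.2 := by
  have h1 := congrArg (PowerSeries.coeff M) (show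
    (PowerSeries.mk (fA (fun i : Fin k => x i.castSucc)) * PowerSeries.mk (fg (x (Fin.last k)))) *
      (PowerSeries.mk (fh b (x (Fin.last k))) * PowerSeries.mk (fs S)) =
    (PowerSeries.mk (fA (fun i : Fin k => x i.castSucc)) *
      (PowerSeries.mk (fh b (x (Fin.last k))) * PowerSeries.mk (fg (x (Fin.last k))))) *
      PowerSeries.mk (fs S) by ring)
  simp only [PowerSeries.coeff_mul, PowerSeries.coeff_mk] at h1
  rw [← h1]
  refine Finset.sum_congr rfl fun q _ => ?_
  rw [fA_succ]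

theorem vanish (k : ℕ) : ∀ (m : ℕ) (x : Fin k → ℝ), m < k → Qs k m x = 0 := by
  induction k with
  | zero =>
    intro m x hm
    exact absurd hm (Nat.not_lt_zero _)
  | succ k ih =>
    intro m x hm
    rw [Qs]
    refine Finset.sum_eq_zero fun b hb => ?_
    rw [Finset.mem_range] at hb
    rw [ih (m - (b + 1)) (Fin.tail x) (by omega), mul_zero]

end IK2

open IK2 in
theorem prfK2 : Sharp.Cx.claimK1 → claimK2 := by
  intro hK1 k m b p hkm
  set S : ℝ := ∑ q : Fin 4, if b ≤ q.val then Four.ph p q else 0 with hS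
  set x : Fin (k + 1) → ℝ := Four.px p with hx
  set M : ℕ := m - (k + 1) with hM
  -- the right-hand side
  have hR : ∑ β ∈ Finset.Nat.antidiagonalTuple (k + 1 + 1) M,
      (∏ i : Fin k, x i.castSucc ^ β i.castSucc.castSucc /
        ((β i.castSucc.castSucc + 1).factorial : ℝ)) *
      (rh b (β (Fin.last k).castSucc) * x (Fin.last k) ^ β (Fin.last k).castSucc /
        ((β (Fin.last k).castSucc).factorial : ℝ)) *
      (S ^ β (Fin.last (k + 1)) / ((β (Fin.last (k + 1))).factorial : ℝ)) =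
      ∑ q ∈ HasAntidiagonal.antidiagonal M, (∑ r ∈ HasAntidiagonal.antidiagonal q.1,
      fA (fun i : Fin k => x i.castSucc) r.1 *
        ∑ w ∈ HasAntidiagonal.antidiagonal r.2, fh b (x (Fin.last k)) w.1 * fg (x (Fin.last k)) w.2) *
      fs S q.2 := by
    rw [sum_snoc]
    refine Finset.sum_congr rfl fun q _ => ?_
    simp only [Fin.snoc_castSucc, Fin.snoc_last]
    rw [← Finset.sum_mul]
    unfold fs
    congr 1
    rw [sum_snoc]
    refine Finset.sum_congr rfl fun r _ => ?_
    simp only [Fin.snoc_castSucc, Fin.snoc_last]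
    rw [← Finset.sum_mul, rh_eq]
    rfl
  rw [hR, ← core]
  -- the left-hand side
  unfold Pb
  rw [← hS, ← hx]
  have hsub : Finset.range (M + 1) ⊆ Finset.range (m + 1) := by
    intro t ht
    rw [Finset.mem_range] at ht ⊢
    omega
  rw [← Finset.sum_subset hsub]
  · rw [← Finset.sum_range_reflect, Finset.Nat.sum_antidiagonal_eq_sum_range_succ
      (fun a t => fA x a * ∑ r ∈ HasAntidiagonal.antidiagonal t, fh b (x (Fin.last k)) r.1 * fs S r.2),
      Finset.mul_sum]
    refine Finset.sum_congr rfl fun a ha => ?_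
    have ha' : a ≤ M := by
      rw [Finset.mem_range] at ha
      omega
    have e1 : M + 1 - 1 - a = M - a := by omega
    rw [e1]
    have e2 : k + 1 ≤ m - (M - a) := by omega
    have e3 : m - (M - a) - (k + 1) = a := by omega
    have h2 := hK1 (k + 1) (m - (M - a)) x e2
    rw [e3] at h2
    rw [h2, Bt_eq]
    have e4 : M - a ≤ m := by omega
    have h1 : ((m.choose (M - a) : ℕ) : ℝ) * (((M - a).factorial : ℝ) *
        ((m - (M - a)).factorial : ℝ)) = (m.factorial : ℝ) := by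
      rw [← mul_assoc]
      exact_mod_cast Nat.choose_mul_factorial_mul_factorial e4
    rw [← h1]
    unfold fA
    ring
  · intro t ht ht'
    rw [Finset.mem_range] at ht ht'
    have h3 : Qs (k + 1) (m - t) x = 0 := vanish (k + 1) (m - t) x (by omega)
    rw [h3]
    ring

end Pool.Agent.Work.MP_122e00_nt.Four.Cx
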