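import Pool.Agent.Work.MP_122e00_nt.Sharp.Cert.Stmts
import Pool.Agent.Work.MP_122e00_nt.Four.Stmts
import Pool.Agent.Work.MP_122e00_nt.Four.Cert.Eval

set_option autoImplicit false

/-!
# The certificate for four parts: statements for the soundness

Compare `Sharp/Cert/Stmts.lean` and `Sharp.Cert.Stmts.lean` (three parts).  Here the weight of the
good placements is a number `2 G` on every leaf.
-/

namespace Pool.Agent.Work.MP_122e00_nt.Four.Cx

open Finset MeasureTheory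

open scoped ENNReal

open Gen Sharp Sharp.Cx

noncomputable section

/-! ### moments -/

/-- C3: the tables. -/
def claimC3 : Prop := ∀ (Ls : List ℕ) (D : ℕ),
    lastN (tb Ls (i0 D)) = h2 (nthN Ls) (fun _ => 0) Ls.length D 0

/-- C8: the packed linear form. -/
def claimC8 : Prop := ∀ (p ws us : List ℕ) (wS bits : ℕ), us.length = 4 →
    p.length = ws.length + 4 →
    dot p (wl bits wS us ws) = ∑ j ∈ Finset.range ws.length, nthN p j * 2 ^ (bits * nthN ws j) +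
      (∑ q ∈ Finset.range 4, nthN us q * nthN p (ws.length + q)) * 2 ^ (bits * wS)

/-! ### leaves -/

/-- The variables of a class: the marks and the exact part. -/
def vr (k : ℕ) (c : Cl) (p : Fin (k + 4) → ℝ) (i : Fin (k + 1)) : ℝ :=
  if i.val < k then p ⟨i.val, by omega⟩
  else ∑ q : Fin 4, (nthN c.us q.val : ℝ) * p (Fin.natAdd k q)

/-- The density of a class. -/
def dpoly (k : ℕ) (c : Cl) (p : Fin (k + 4) → ℝ) : ℝ :=
  (c.cn : ℝ) / (c.cd : ℝ) * ∑ β ∈ Finset.Nat.antidiagonalTuple (k + 1) c.D,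
    (gw c.fx c.fz (sm c.us) k β : ℝ) * ∏ i, vr k c p i ^ β i / ((β i).factorial : ℝ)

/-- Valid class. -/
structure Clv (k : ℕ) (c : Cl) : Prop where
  k_eq : c.k = k
  k_pos : 1 ≤ k
  ws_len : c.ws.length = k
  us_len : c.us.length = 4
  us_le : ∀ q, nthN c.us q ≤ 1
  fx_len : c.D < c.fx.length
  fz_len : c.D < c.fz.length
  cd_pos : 0 < c.cd
  sl_le : ∀ β ∈ Finset.Nat.antidiagonalTuple (k + 1) c.D, (sm c.us = 0 → β (Fin.last k) = 0) →
    sl c.ws c.wS k β ≤ c.mx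
  sl_inj : ∀ β ∈ Finset.Nat.antidiagonalTuple (k + 1) c.D,
    ∀ β' ∈ Finset.Nat.antidiagonalTuple (k + 1) c.D, (sm c.us = 0 → β (Fin.last k) = 0) →
    (sm c.us = 0 → β' (Fin.last k) = 0) → sl c.ws c.wS k β = sl c.ws c.wS k β' → β = β'

/-- Valid simplex. -/
def Sv (k : ℕ) (S : List (List ℕ)) : Prop :=
  S.length = k + 4 ∧ ∀ p ∈ S, p.length = k + 4 ∧ 0 < sm p

/-- The table entry. -/
def rw4 (c : Cl) (bits : ℕ) (S : List (List ℕ)) : ℕ :=
  lastN (tb (mpL (fun p => Nat.mul (Nat.div (dl S) (sm p)) (dot p (wl bits c.wS c.us c.ws))) S)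
    (i0 c.D))

/-- The values of the variables at the vertices, times the common multiple. -/
def av (k : ℕ) (c : Cl) (S : List (List ℕ)) (v : ℕ) (j : Fin (k + 1)) : ℕ :=
  dl S / sm (nth S v) * (if j.val < k then nthN (nth S v) j.val
    else ∑ q ∈ Finset.range 4, nthN c.us q * nthN (nth S v) (k + q))

/-- E1a: the slot as a sum. -/
def claimE1a : Prop := ∀ (k : ℕ) (c : Cl) (bits : ℕ) (S : List (List ℕ)), Clv k c →
    Sv k S → (∀ p ∈ S, dl S / sm p * sm p = dl S) → okb c bits (dl S) = true →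
    ∃ C : (Fin (k + 1) → ℕ) → ℕ,
    (∀ α ∈ Finset.Nat.antidiagonalTuple (k + 1) c.D,
      (C α : ℝ) * (∏ j, ((α j).factorial : ℝ)) =
        ((k + 3 + c.D).factorial : ℝ) * ∫ y in Chamber.T (Fin (k + 3)),
          ∏ j, lf (k + 3) (fun v => (av k c S v j : ℝ)) y ^ α j) ∧
    slot (gt c bits) c.mx bits (rw4 c bits S) =
      ∑ α ∈ Finset.Nat.antidiagonalTuple (k + 1) c.D, C α * gw c.fx c.fz (sm c.us) k α

/-- E1b: the density in barycentric coordinates. -/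
def claimE1b : Prop := ∀ (k : ℕ) (c : Cl) (S : List (List ℕ)) (y : Fin (k + 3) → ℝ), Clv k c →
    Sv k S → 0 < dl S → (∀ p ∈ S, dl S / sm p * sm p = dl S) →
    dpoly k c (Chamber.bar (pts (k + 3) S) y) = (c.cn : ℝ) / (c.cd : ℝ) *
      ∑ α ∈ Finset.Nat.antidiagonalTuple (k + 1) c.D, (gw c.fx c.fz (sm c.us) k α : ℝ) *
        ∏ j, (lf (k + 3) (fun v => (av k c S v j : ℝ)) y / (dl S : ℝ)) ^ α j /
          ((α j).factorial : ℝ)

/-- E1: the integral of the density. -/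
def claimE1 : Prop := ∀ (k : ℕ) (c : Cl) (bits : ℕ) (S : List (List ℕ)), Clv k c →
    Sv k S → (∀ p ∈ S, dl S / sm p * sm p = dl S) → okb c bits (dl S) = true →
    ∫ y in Chamber.T (Fin (k + 3)), dpoly k c (Chamber.bar (pts (k + 3) S) y) =
      (c.cn : ℝ) / (c.cd : ℝ) * (1 / ((k + 3 + c.D).factorial : ℝ)) *
        ((slot (gt c bits) c.mx bits (rw4 c bits S) : ℝ) / (dl S : ℝ) ^ c.D)

/-- C9: continuity and positivity of the polynomials. -/
def claimC9 : Prop := (∀ (k : ℕ) (c : Cl), Continuous (dpoly k c)) ∧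
    (∀ (k : ℕ) (c : Cl) (p : Fin (k + 4) → ℝ), (∀ i, 0 ≤ p i) → 0 ≤ dpoly k c p) ∧
    (∀ (k : ℕ) (S : List (List ℕ)) (y : Fin (k + 3) → ℝ), Sv k S → y ∈ Chamber.T (Fin (k + 3)) →
      (∀ i, 0 ≤ Chamber.bar (pts (k + 3) S) y i) ∧ ∑ i, Chamber.bar (pts (k + 3) S) y i = 1)

/-- E3: the value of a leaf. -/
def claimE3 : Prop := ∀ (k : ℕ) (c : Cl) (bits : ℕ) (S : List (List ℕ)) (G r : ℕ),
    Clv k c → Sv k S → leafv c bits S G = some r →
    Chamber.EV (pts (k + 3) S) (fun p => ENNReal.ofReal (dpoly k c p *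
      pg 128 (4 ^ k) (2 * (G : ℝ)))) ≤ ENNReal.ofReal ((r : ℝ) / (Sc : ℝ))

/-! ### the weight of the good placements -/

/-- The linear form `∑_{i ∈ F} x_i + h_q`. -/
def lu (k q F : ℕ) (p : Fin (k + 4) → ℝ) : ℝ := ∑ i, (nthN (uv k q F) i.val : ℝ) * p i

open Classical in
/-- G1: the sum over the placements. -/
def claimG1 : Prop := ∀ (k : ℕ) (p : Fin (k + 4) → ℝ), (∀ i, 0 ≤ p i) → ∑ i, p i = 1 →
    Pl (g4 0) (px p) (ph p) = 2 * ∑ q ∈ Finset.range 4, ∑ F ∈ Finset.range (2 ^ k),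
      if 1 / 2 ≤ lu k q F p then (wtf k F : ℝ) else 0

open Classical in
/-- The invariant: on the interior of the simplex the decided linear forms (bits of `m`) contribute
`G`. -/
def Inv (k : ℕ) (S : List (List ℕ)) (m G : ℕ) : Prop :=
  ∀ y : Fin (k + 3) → ℝ, (∀ i, 0 < y i) → ∑ i, y i < 1 →
    (∑ q ∈ Finset.range 4, ∑ F ∈ Finset.range (2 ^ k),
      if m / 2 ^ (q * 2 ^ k + F) % 2 = 1 ∧ 1 / 2 ≤ lu k q F (Chamber.bar (pts (k + 3) S) y) then
        wtf k F else 0) = G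

/-- G2: the start. -/
def claimG2 : Prop := ∀ (k : ℕ) (S : List (List ℕ)), Inv k S 0 0

/-- G3: one decision. -/
def claimG3 : Prop := ∀ (k : ℕ) (S : List (List ℕ)) (m G : ℕ) (q F : ℕ), Sv k S →
    Inv k S m G → q < 4 → F < 2 ^ k → m / 2 ^ (q * 2 ^ k + F) % 2 = 0 →
    (allL (geb (uv k q F)) S = true → Inv k S (m + 2 ^ (q * 2 ^ k + F)) (G + wtf k F)) ∧
    (allL (leb (uv k q F)) S = true → allL (geb (uv k q F)) S = false →
      Inv k S (m + 2 ^ (q * 2 ^ k + F)) G)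

/-- G4: one cut. -/
def claimG4 : Prop := ∀ (k : ℕ) (S : List (List ℕ)) (i j A B g : ℕ), Sv k S → i < j → j < k + 4 →
    A * sm (nth S i) ≠ 0 → B * sm (nth S j) ≠ 0 →
    chk A B g (nth S i) (nth S j) (cmb A B g (nth S i) (nth S j)) = true →
    Sv k (setn (cmb A B g (nth S i) (nth S j)) i S) ∧
    Sv k (setn (cmb A B g (nth S i) (nth S j)) j S) ∧
    (∀ m G, Inv k S m G → Inv k (setn (cmb A B g (nth S i) (nth S j)) i S) m G ∧
      Inv k (setn (cmb A B g (nth S i) (nth S j)) j S) m G) ∧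
    ∀ G : (Fin (k + 3 + 1) → ℝ) → ℝ≥0∞, Measurable G → Chamber.EV (pts (k + 3) S) G =
      ENNReal.ofReal ((A * sm (nth S i) : ℕ) / ((A * sm (nth S i) : ℕ) + (B * sm (nth S j) : ℕ) : ℝ)) *
        Chamber.EV (pts (k + 3) (setn (cmb A B g (nth S i) (nth S j)) i S)) G +
      ENNReal.ofReal ((B * sm (nth S j) : ℕ) / ((A * sm (nth S i) : ℕ) + (B * sm (nth S j) : ℕ) : ℝ)) *
        Chamber.EV (pts (k + 3) (setn (cmb A B g (nth S i) (nth S j)) j S)) G

/-- The bound for a simplex, for the density `Dn`. -/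
def Bd (k : ℕ) (Dn : (Fin (k + 4) → ℝ) → ℝ) (S : List (List ℕ)) (r : ℕ) : Prop :=
  Chamber.EV (pts (k + 3) S) (fun p => ENNReal.ofReal (Dn p *
    pg 128 (4 ^ k) (Pl (g4 0) (px (k := k) p) (ph (k := k) p)))) ≤
    ENNReal.ofReal ((r : ℝ) / (Sc : ℝ))

/-- The classes dominate the density. -/
def Dom (k : ℕ) (Dn : (Fin (k + 4) → ℝ) → ℝ) (cls : ℕ → Cl) : Prop :=
  Measurable Dn ∧ ∀ b, Clv k (cls b) ∧ ∀ p : Fin (k + 4) → ℝ, (∀ i, 0 ≤ p i) → ∑ i, p i = 1 →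
    0 ≤ Dn p ∧ Dn p ≤ dpoly k (cls b) p

/-- G5: soundness of the evaluation. -/
def claimG5 : Prop := ∀ (k : ℕ) (Dn : (Fin (k + 4) → ℝ) → ℝ) (cls : ℕ → Cl), Dom k Dn cls →
    ∀ (c : Ct) (S : List (List ℕ)) (m G r : ℕ), Sv k S → Inv k S m G →
    run cls k c S m G = some r → Bd k Dn S r

/-! ### the densities -/

/-- K2: the density with hidden marks as a polynomial. -/
def claimK2 : Prop := ∀ (k m b : ℕ) (p : Fin (k + 1 + 4) → ℝ), k + 1 ≤ m →
    Pb m b p = (m.factorial : ℝ) *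
    ∑ β ∈ Finset.Nat.antidiagonalTuple (k + 1 + 1) (m - (k + 1)),
      (∏ i : Fin k, px p i.castSucc ^ β i.castSucc.castSucc /
        ((β i.castSucc.castSucc + 1).factorial : ℝ)) *
      (rh b (β (Fin.last k).castSucc) * px p (Fin.last k) ^ β (Fin.last k).castSucc /
        ((β (Fin.last k).castSucc).factorial : ℝ)) *
      ((∑ q : Fin 4, if b ≤ q.val then ph p q else 0) ^ β (Fin.last (k + 1)) /
        ((β (Fin.last (k + 1))).factorial : ℝ))

/-- The base simplex. -/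
def bs : ℕ → List (List ℕ)
  | 1 => [[1, 0, 0, 0, 0], [0, 1, 0, 0, 0], [0, 1, 1, 0, 0], [0, 1, 1, 1, 0], [0, 1, 1, 1, 1]]
  | 2 => [[1, 0, 0, 0, 0, 0], [1, 1, 0, 0, 0, 0], [0, 0, 1, 0, 0, 0], [0, 0, 1, 1, 0, 0],
      [0, 0, 1, 1, 1, 0], [0, 0, 1, 1, 1, 1]]
  | _ => [[1, 0, 0, 0, 0, 0, 0], [1, 1, 0, 0, 0, 0, 0], [1, 1, 1, 0, 0, 0, 0],
      [0, 0, 0, 1, 0, 0, 0], [0, 0, 0, 1, 1, 0, 0], [0, 0, 0, 1, 1, 1, 0], [0, 0, 0, 1, 1, 1, 1]]

/-- K3: the base simplex. -/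
def claimK3 : Prop := ∀ k : ℕ, 1 ≤ k → k ≤ 3 → Sv k (bs k) ∧ pts (k + 3) (bs k) = V1 k

end

end Pool.Agent.Work.MP_122e00_nt.Four.Cx
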